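import Pool.Agent.Q100.KPMain

/-!
# A pair compatible with a singular quasi-linear map on `ℓ₂` with noncompact difference

The definitions are in `Pool/Agent/Q100/KPDefs.lean`.
-/

set_option autoImplicit false

namespace Pool.Agent.Results.MP_d3af15_an.NotCompact

open Q100.KP

/-- Negative answer to Q1: there are a singular quasi-linear map `Ω` on `ℓ₂` and a pair `(T, U)`
of operators compatible with `Ω` such that `T - U` is not compact. -/
theorem result : ∃ (Om : E2 → E2) (T U : E2 →L[ℝ] E2), QuasiLinear Om ∧ Singular Om ∧
    Compatible Om T U ∧ ¬ IsCompactOperator (T - U) :=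
  main

end Pool.Agent.Results.MP_d3af15_an.NotCompact
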